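import Mathlib

set_option autoImplicit false

namespace Pool.Agent.Run7.h211.F32

/-- the property of the problem -/
def Good (n : ℕ) (H : Finset (Finset (Fin n))) : Prop :=
  (∀ e ∈ H, e.card = 3) ∧
  (¬ ∃ f : Fin 5 → Fin n, Function.Injective f ∧
      ({f 0, f 1, f 2} : Finset (Fin n)) ∈ H ∧
      ({f 0, f 3, f 4} : Finset (Fin n)) ∈ H ∧
      ({f 1, f 3, f 4} : Finset (Fin n)) ∈ H ∧
      ({f 2, f 3, f 4} : Finset (Fin n)) ∈ H) ∧
  (∀ v : Fin n, ∀ k : ℕ, 5 ≤ k → Odd k →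
      ¬ ∃ c : Fin k → Fin n, Function.Injective c ∧ (∀ i, c i ≠ v) ∧
        ∀ i : Fin k, ({v, c i, c (finRotate k i)} : Finset (Fin n)) ∈ H)

/-- Piece A: circular tournament. -/
def PieceA : Prop := ∀ ε : ℝ, 0 < ε → ∃ N : ℕ, ∀ n : ℕ, N ≤ n →
  ∃ H : Finset (Finset (Fin n)), Good n H ∧ (1 / 4 - ε) * ((n.choose 3 : ℕ) : ℝ) ≤ (H.card : ℝ)

/-- Piece B: a graph without odd cycles of length at least 5 has a 2-colouring with at most
4n ordered monochromatic adjacent pairs. -/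
def PieceB : Prop := ∀ (n : ℕ) (G : Fin n → Fin n → Prop), (∀ x y, G x y → G y x) → (∀ x, ¬ G x x) →
  (∀ k : ℕ, 5 ≤ k → Odd k → ¬ ∃ c : Fin k → Fin n, Function.Injective c ∧
    ∀ i : Fin k, G (c i) (c (finRotate k i))) →
  ∃ s : Fin n → Bool, Set.ncard {p : Fin n × Fin n | G p.1 p.2 ∧ s p.1 = s p.2} ≤ 4 * n

/-- Piece C: main counting. -/
def PieceC : Prop := ∃ C : ℝ, ∀ (n : ℕ) (s : Fin n → Fin n → Bool) (h : Fin n → Fin n → Fin n → Bool),
  (∀ x y z, h x y z = h y x z) → (∀ x y z, h x y z = h x z y) → (∀ x y, h x x y = false) →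
  (∀ x y z, h x y z = true → s x y ≠ s x z) →
  (∀ a b c d e, h a b c = true → h a d e = true → h b d e = true → h c d e = true → False) →
  4 * (((Finset.univ : Finset (Fin n × Fin n × Fin n)).filter
    (fun p => h p.1 p.2.1 p.2.2 = true)).card : ℝ) ≤ (n : ℝ) ^ 3 + C * (n : ℝ) ^ 2

/-- Piece D: assembly of the upper bound. -/
def PieceD : Prop := PieceB → PieceC → ∀ ε : ℝ, 0 < ε → ∃ N : ℕ, ∀ n : ℕ, N ≤ n →
  ∀ H : Finset (Finset (Fin n)), Good n H → (H.card : ℝ) ≤ (1 / 4 + ε) * ((n.choose 3 : ℕ) : ℝ)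

end Pool.Agent.Run7.h211.F32
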